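import Pool.Agent.K3h37.RS.Low.Stm
import Pool.Agent.H510R2.Div

/-!
# Brick SUM of helper37's project RS (helper15): the correlations of the pairs
-/

set_option autoImplicit false

namespace Pool.Agent.K3h15.RS

open Pool.Agent.K3h37.RS.Low Finset

theorem R_bounds {Y : ℕ} {x : ℕ × ℕ} (hx : x ∈ Fam Y) :
    1 ≤ R x ∧ R x ≤ 16 * Y ^ 3 := by
  simp only [Fam, Finset.mem_filter, Finset.mem_product, Finset.mem_Ioc] at hx
  obtain ⟨⟨⟨h1, h2⟩, h3, h4⟩, _⟩ := hx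
  constructor
  · have p1 : 0 < x.1 := by omega
    have p2 : 0 < x.2 := by omega
    exact Nat.succ_le_of_lt (Nat.mul_pos (Nat.mul_pos p1 p2) (by omega))
  · have q1 : x.1 * x.2 ≤ (2 * Y) * (2 * Y) := Nat.mul_le_mul h2 h4
    have q2 : x.1 + x.2 ≤ 4 * Y := by omega
    calc R x = x.1 * x.2 * (x.1 + x.2) := rfl
      _ ≤ (2 * Y) * (2 * Y) * (4 * Y) := Nat.mul_le_mul q1 q2
      _ = 16 * Y ^ 3 := by ring

theorem card_Fam (Y : ℕ) : ((Fam Y).card : ℝ) ≤ (Y : ℝ) ^ 2 := by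
  have h : (Fam Y).card ≤ Y ^ 2 := by
    refine (Finset.card_filter_le _ _).trans ?_
    rw [Finset.card_product, Nat.card_Ioc]
    have : 2 * Y - Y = Y := by omega
    rw [this, sq]
  exact_mod_cast h

/-- the indicator of `d ∣ R x` -/
noncomputable def ind (d : ℕ) (x : ℕ × ℕ) : ℝ := if d ∣ R x then 1 else 0

theorem ind_nonneg (d : ℕ) (x : ℕ × ℕ) : 0 ≤ ind d x := by
  unfold ind; split_ifs <;> norm_num

theorem sum_ind (Y d : ℕ) :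
    ∑ x ∈ Fam Y, ind d x = ((((Fam Y).filter fun x => d ∣ R x).card : ℕ) : ℝ) := by
  unfold ind
  rw [Finset.sum_boole]

theorem gcd_le {Y : ℕ} {θ : ℝ} (x y : ℕ × ℕ) (hx : x ∈ Fam Y) :
    ((Nat.gcd (R x) (R y) : ℕ) : ℝ) ^ θ ≤
      ∑ d ∈ (Finset.Icc 1 (16 * Y ^ 3) : Finset ℕ), (d : ℝ) ^ θ * (ind d x * ind d y) := by
  obtain ⟨h1, h2⟩ := R_bounds hx
  set g := Nat.gcd (R x) (R y) with hg
  have hg1 : 1 ≤ g := Nat.gcd_pos_of_pos_left _ h1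
  have hg2 : g ≤ 16 * Y ^ 3 := (Nat.le_of_dvd h1 (Nat.gcd_dvd_left _ _)).trans h2
  have hmem : g ∈ Finset.Icc 1 (16 * Y ^ 3) := Finset.mem_Icc.mpr ⟨hg1, hg2⟩
  have e : (g : ℝ) ^ θ = (g : ℝ) ^ θ * (ind g x * ind g y) := by
    unfold ind
    rw [if_pos (Nat.gcd_dvd_left _ _), if_pos (Nat.gcd_dvd_right _ _)]
    ring
  rw [e]
  exact Finset.single_le_sum (f := fun d : ℕ => (d : ℝ) ^ θ * (ind d x * ind d y))
    (fun d _ => mul_nonneg (Real.rpow_nonneg (Nat.cast_nonneg d) _)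
      (mul_nonneg (ind_nonneg d x) (ind_nonneg d y))) hmem

theorem double_sum (Y : ℕ) (θ : ℝ) (A : Finset ℕ) :
    ∑ x ∈ Fam Y, ∑ y ∈ Fam Y, ∑ d ∈ A, (d : ℝ) ^ θ * (ind d x * ind d y)
      = ∑ d ∈ A, (d : ℝ) ^ θ * (∑ x ∈ Fam Y, ind d x) ^ 2 := by
  have h1 : ∀ x ∈ Fam Y, ∑ y ∈ Fam Y, ∑ d ∈ A, (d : ℝ) ^ θ * (ind d x * ind d y)
      = ∑ d ∈ A, (d : ℝ) ^ θ * (ind d x * ∑ y ∈ Fam Y, ind d y) := by
    intro x _
    rw [Finset.sum_comm]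
    refine Finset.sum_congr rfl fun d _ => ?_
    rw [Finset.mul_sum, Finset.mul_sum]
  rw [Finset.sum_congr rfl h1, Finset.sum_comm]
  refine Finset.sum_congr rfl fun d _ => ?_
  rw [← Finset.mul_sum, ← Finset.sum_mul, sq]

theorem t_SUM (hNUM : S_NUM) : S_SUM := by
  intro θ hθ0 hθ
  obtain ⟨ε, hε⟩ : ∃ ε : ℝ, ε = (2 / 3 - θ) / 4 := ⟨_, rfl⟩
  have hε0 : 0 < ε := by rw [hε]; linarith
  obtain ⟨C, hC, hCb⟩ := hNUM ε hε0
  obtain ⟨C', hC', hCb'⟩ := Pool.Agent.H510R2.divisor_bound ε hε0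
  obtain ⟨p, hp⟩ : ∃ p : ℝ, p = θ + 2 * ε - 2 := ⟨_, rfl⟩
  have hp1 : p < -1 := by rw [hp, hε]; linarith
  have hsum : Summable (fun n : ℕ => (n : ℝ) ^ p) := Real.summable_nat_rpow.mpr hp1
  have hS0 : 0 ≤ ∑' n : ℕ, (n : ℝ) ^ p :=
    tsum_nonneg fun n => Real.rpow_nonneg (Nat.cast_nonneg n) p
  refine ⟨81 * C ^ 2 * (∑' n : ℕ, (n : ℝ) ^ p) + 144 * C * C', by positivity, ?_⟩
  intro Y hY
  have hYr : (1 : ℝ) ≤ Y := by exact_mod_cast hY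
  have hY0 : (0 : ℝ) < Y := by linarith
  set N : ℕ := 16 * Y ^ 3 with hN
  have hN1 : (1 : ℝ) ≤ (N : ℝ) := by
    have : 1 ≤ N := by rw [hN]; have := Nat.pos_of_ne_zero (pow_ne_zero 3 (by omega : Y ≠ 0)); omega
    exact_mod_cast this
  have hN0 : (0 : ℝ) < N := by linarith
  have hNr : (N : ℝ) = 16 * (Y : ℝ) ^ 3 := by rw [hN]; push_cast; ring
  -- reduction to the sum over `d`
  have step0 : ∑ x ∈ Fam Y, ∑ y ∈ Fam Y, ((Nat.gcd (R x) (R y) : ℕ) : ℝ) ^ θ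
      ≤ ∑ d ∈ Finset.Icc 1 N, (d : ℝ) ^ θ * (∑ x ∈ Fam Y, ind d x) ^ 2 := by
    rw [← double_sum]
    exact Finset.sum_le_sum fun x hx => Finset.sum_le_sum fun y _ => gcd_le x y hx
  refine step0.trans ?_
  -- the pointwise bound
  have step1 : ∀ d ∈ Finset.Icc 1 N, (d : ℝ) ^ θ * (∑ x ∈ Fam Y, ind d x) ^ 2
      ≤ 81 * C ^ 2 * (Y : ℝ) ^ 4 * (d : ℝ) ^ p
        + 9 * C * ((d : ℝ) ^ (θ + ε) * ∑ x ∈ Fam Y, ind d x) := by
    intro d hd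
    rw [Finset.mem_Icc] at hd
    have hd1 : (1 : ℝ) ≤ d := by exact_mod_cast hd.1
    have hd0 : (0 : ℝ) < d := by linarith
    have hM0 : 0 ≤ ∑ x ∈ Fam Y, ind d x := Finset.sum_nonneg fun x _ => ind_nonneg d x
    have hM := hCb Y d hY hd.1
    rw [← sum_ind] at hM
    set M := ∑ x ∈ Fam Y, ind d x with hMdef
    have hdε : 0 < (d : ℝ) ^ ε := Real.rpow_pos_of_pos hd0 _
    have hdθ : 0 < (d : ℝ) ^ θ := Real.rpow_pos_of_pos hd0 _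
    have hdp : 0 < (d : ℝ) ^ p := Real.rpow_pos_of_pos hd0 _
    have e1 : (d : ℝ) ^ (θ + ε) = (d : ℝ) ^ θ * (d : ℝ) ^ ε := Real.rpow_add hd0 _ _
    have e2 : (d : ℝ) ^ p * (d : ℝ) ^ 2 = (d : ℝ) ^ θ * ((d : ℝ) ^ ε) ^ 2 := by
      rw [← Real.rpow_natCast (d : ℝ) 2, ← Real.rpow_add hd0, ← Real.rpow_natCast _ 2,
        ← Real.rpow_mul hd0.le, ← Real.rpow_add hd0]
      congr 1
      rw [hp]; push_cast; ring
    by_cases hc : (d : ℝ) ≤ (Y : ℝ) ^ 2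
    · have h1 : M ≤ C * (d : ℝ) ^ ε * (9 * (Y : ℝ) ^ 2 / d) := by
        refine hM.trans ?_
        apply mul_le_mul_of_nonneg_left _ (by positivity)
        rw [div_add_one hd0.ne']
        apply div_le_div_of_nonneg_right _ hd0.le
        linarith
      have h2 : M ^ 2 ≤ (C * (d : ℝ) ^ ε * (9 * (Y : ℝ) ^ 2 / d)) ^ 2 :=
        pow_le_pow_left₀ hM0 h1 2
      have h3 : (d : ℝ) ^ θ * M ^ 2 ≤ 81 * C ^ 2 * (Y : ℝ) ^ 4 * (d : ℝ) ^ p := by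
        calc (d : ℝ) ^ θ * M ^ 2
            ≤ (d : ℝ) ^ θ * (C * (d : ℝ) ^ ε * (9 * (Y : ℝ) ^ 2 / d)) ^ 2 :=
              mul_le_mul_of_nonneg_left h2 hdθ.le
          _ = 81 * C ^ 2 * (Y : ℝ) ^ 4 * (((d : ℝ) ^ θ * ((d : ℝ) ^ ε) ^ 2) / (d : ℝ) ^ 2) := by
              field_simp; ring
          _ = 81 * C ^ 2 * (Y : ℝ) ^ 4 * (d : ℝ) ^ p := by
              rw [← e2]; field_simp
      have h4 : 0 ≤ 9 * C * ((d : ℝ) ^ (θ + ε) * M) := by positivity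
      linarith
    · push Not at hc
      have h1 : M ≤ 9 * C * (d : ℝ) ^ ε := by
        have h5 : 8 * (Y : ℝ) ^ 2 / d + 1 ≤ 9 := by
          have : 8 * (Y : ℝ) ^ 2 / d ≤ 8 := by
            rw [div_le_iff₀ hd0]; linarith
          linarith
        calc M ≤ C * (d : ℝ) ^ ε * (8 * (Y : ℝ) ^ 2 / d + 1) := hM
          _ ≤ C * (d : ℝ) ^ ε * 9 := mul_le_mul_of_nonneg_left h5 (by positivity)
          _ = 9 * C * (d : ℝ) ^ ε := by ring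
      have h3 : (d : ℝ) ^ θ * M ^ 2 ≤ 9 * C * ((d : ℝ) ^ (θ + ε) * M) := by
        rw [e1]
        calc (d : ℝ) ^ θ * M ^ 2 = (d : ℝ) ^ θ * M * M := by ring
          _ ≤ (d : ℝ) ^ θ * M * (9 * C * (d : ℝ) ^ ε) :=
              mul_le_mul_of_nonneg_left h1 (by positivity)
          _ = 9 * C * ((d : ℝ) ^ θ * (d : ℝ) ^ ε * M) := by ring
      have h4 : 0 ≤ 81 * C ^ 2 * (Y : ℝ) ^ 4 * (d : ℝ) ^ p := by positivity
      linarith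
  refine (Finset.sum_le_sum step1).trans ?_
  rw [Finset.sum_add_distrib, ← Finset.mul_sum, ← Finset.mul_sum]
  -- first part
  have A1 : ∑ d ∈ Finset.Icc 1 N, (d : ℝ) ^ p ≤ ∑' n : ℕ, (n : ℝ) ^ p :=
    hsum.sum_le_tsum _ fun n _ => Real.rpow_nonneg (Nat.cast_nonneg n) p
  -- second part
  have A2 : ∑ d ∈ Finset.Icc 1 N, ((d : ℝ) ^ (θ + ε) * ∑ x ∈ Fam Y, ind d x)
      ≤ 16 * C' * (Y : ℝ) ^ 4 := by
    have e : ∑ d ∈ Finset.Icc 1 N, ((d : ℝ) ^ (θ + ε) * ∑ x ∈ Fam Y, ind d x)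
        = ∑ x ∈ Fam Y, ∑ d ∈ Finset.Icc 1 N, (d : ℝ) ^ (θ + ε) * ind d x := by
      rw [Finset.sum_comm]
      refine Finset.sum_congr rfl fun d _ => ?_
      rw [Finset.mul_sum]
    rw [e]
    have hx : ∀ x ∈ Fam Y, ∑ d ∈ Finset.Icc 1 N, (d : ℝ) ^ (θ + ε) * ind d x
        ≤ 16 * C' * (Y : ℝ) ^ 2 := by
      intro x hx
      obtain ⟨h1, h2⟩ := R_bounds hx
      have B1 : ∑ d ∈ Finset.Icc 1 N, (d : ℝ) ^ (θ + ε) * ind d x
          ≤ ∑ d ∈ Finset.Icc 1 N, (N : ℝ) ^ (θ + ε) * ind d x := by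
        refine Finset.sum_le_sum fun d hd => ?_
        rw [Finset.mem_Icc] at hd
        apply mul_le_mul_of_nonneg_right _ (ind_nonneg d x)
        apply Real.rpow_le_rpow (Nat.cast_nonneg d) (by exact_mod_cast hd.2) (by linarith)
      have B2 : ∑ d ∈ Finset.Icc 1 N, ind d x ≤ ((R x).divisors.card : ℝ) := by
        unfold ind
        rw [Finset.sum_boole]
        have : (Finset.filter (fun d => d ∣ R x) (Finset.Icc 1 N)).card ≤ (R x).divisors.card := by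
          apply Finset.card_le_card
          intro d hd
          rw [Finset.mem_filter] at hd
          rw [Nat.mem_divisors]
          exact ⟨hd.2, by omega⟩
        exact_mod_cast this
      have B3 : ((R x).divisors.card : ℝ) ≤ C' * (N : ℝ) ^ ε := by
        refine (hCb' (R x) h1).trans ?_
        apply mul_le_mul_of_nonneg_left _ hC'.le
        apply Real.rpow_le_rpow (Nat.cast_nonneg _) (by exact_mod_cast h2) hε0.le
      have B4 : (N : ℝ) ^ (θ + ε) * (N : ℝ) ^ ε ≤ 16 * (Y : ℝ) ^ 2 := by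
        rw [← Real.rpow_add hN0]
        have c1 : (N : ℝ) ^ (θ + ε + ε) ≤ (N : ℝ) ^ ((2 : ℝ) / 3) := by
          apply Real.rpow_le_rpow_of_exponent_le hN1
          rw [hε]; linarith
        have c2 : (N : ℝ) ^ ((2 : ℝ) / 3) ≤ 16 * (Y : ℝ) ^ 2 := by
          rw [hNr, Real.mul_rpow (by norm_num) (by positivity), ← Real.rpow_natCast (Y : ℝ) 3,
            ← Real.rpow_mul hY0.le]
          have c3 : ((3 : ℕ) : ℝ) * (2 / 3) = ((2 : ℕ) : ℝ) := by norm_num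
          rw [c3, Real.rpow_natCast]
          apply mul_le_mul_of_nonneg_right _ (by positivity)
          calc (16 : ℝ) ^ ((2 : ℝ) / 3) ≤ (16 : ℝ) ^ (1 : ℝ) :=
                Real.rpow_le_rpow_of_exponent_le (by norm_num) (by norm_num)
            _ = 16 := Real.rpow_one _
        exact c1.trans c2
      have hNn : 0 ≤ (N : ℝ) ^ (θ + ε) := Real.rpow_nonneg hN0.le _
      calc ∑ d ∈ Finset.Icc 1 N, (d : ℝ) ^ (θ + ε) * ind d x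
          ≤ ∑ d ∈ Finset.Icc 1 N, (N : ℝ) ^ (θ + ε) * ind d x := B1
        _ = (N : ℝ) ^ (θ + ε) * ∑ d ∈ Finset.Icc 1 N, ind d x := by rw [Finset.mul_sum]
        _ ≤ (N : ℝ) ^ (θ + ε) * (C' * (N : ℝ) ^ ε) :=
            mul_le_mul_of_nonneg_left (B2.trans B3) hNn
        _ = C' * ((N : ℝ) ^ (θ + ε) * (N : ℝ) ^ ε) := by ring
        _ ≤ C' * (16 * (Y : ℝ) ^ 2) := mul_le_mul_of_nonneg_left B4 hC'.le
        _ = 16 * C' * (Y : ℝ) ^ 2 := by ring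
    calc ∑ x ∈ Fam Y, ∑ d ∈ Finset.Icc 1 N, (d : ℝ) ^ (θ + ε) * ind d x
        ≤ ∑ x ∈ Fam Y, 16 * C' * (Y : ℝ) ^ 2 := Finset.sum_le_sum hx
      _ = ((Fam Y).card : ℝ) * (16 * C' * (Y : ℝ) ^ 2) := by
          rw [Finset.sum_const, nsmul_eq_mul]
      _ ≤ (Y : ℝ) ^ 2 * (16 * C' * (Y : ℝ) ^ 2) :=
          mul_le_mul_of_nonneg_right (card_Fam Y) (by positivity)
      _ = 16 * C' * (Y : ℝ) ^ 4 := by ring
  have T1 : 81 * C ^ 2 * (Y : ℝ) ^ 4 * ∑ d ∈ Finset.Icc 1 N, (d : ℝ) ^ p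
      ≤ 81 * C ^ 2 * (Y : ℝ) ^ 4 * ∑' n : ℕ, (n : ℝ) ^ p :=
    mul_le_mul_of_nonneg_left A1 (by positivity)
  have T2 : 9 * C * ∑ d ∈ Finset.Icc 1 N, ((d : ℝ) ^ (θ + ε) * ∑ x ∈ Fam Y, ind d x)
      ≤ 9 * C * (16 * C' * (Y : ℝ) ^ 4) := mul_le_mul_of_nonneg_left A2 (by positivity)
  calc 81 * C ^ 2 * (Y : ℝ) ^ 4 * ∑ d ∈ Finset.Icc 1 N, (d : ℝ) ^ p
        + 9 * C * ∑ d ∈ Finset.Icc 1 N, ((d : ℝ) ^ (θ + ε) * ∑ x ∈ Fam Y, ind d x)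
      ≤ 81 * C ^ 2 * (Y : ℝ) ^ 4 * ∑' n : ℕ, (n : ℝ) ^ p
        + 9 * C * (16 * C' * (Y : ℝ) ^ 4) := add_le_add T1 T2
    _ = (81 * C ^ 2 * (∑' n : ℕ, (n : ℝ) ^ p) + 144 * C * C') * (Y : ℝ) ^ 4 := by ring

end Pool.Agent.K3h15.RS
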